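import Pool.Agent.W442.SV.Defs

/-! Task SV-STEP: combinatorics of the rank conditions. -/

set_option autoImplicit false

namespace Pool.Agent.W22.SV.Step

open Pool.Agent.W442.SV

variable {n : ℕ}

lemma swRank_split (u : Equiv.Perm (Fin n)) (p q r : ℕ) (hpr : p ≤ r + 1) :
    swRank u p q =
      (Finset.univ.filter fun j : Fin n => (j : ℕ) < q ∧ p ≤ (u j : ℕ) ∧ (u j : ℕ) ≤ r).card +
        swRank u (r + 1) q := by
  rw [swRank, swRank, ← Finset.card_union_of_disjoint]
  · congr 1
    ext j
    simp only [Finset.mem_filter, Finset.mem_univ, true_and, Finset.mem_union]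
    omega
  · rw [Finset.disjoint_left]
    intro j
    simp only [Finset.mem_filter, Finset.mem_univ, true_and]
    omega

theorem main : S_step := by
  intro n u w hr hne
  -- the first difference
  have hex : (Finset.univ.filter fun k => u k ≠ w k).Nonempty := by
    by_contra hcon
    apply hne
    rw [Finset.not_nonempty_iff_eq_empty, Finset.filter_eq_empty_iff] at hcon
    ext k
    have := hcon (Finset.mem_univ k)
    push Not at this
    rw [this]
  set k := (Finset.univ.filter fun k => u k ≠ w k).min' hex with hk
  have hk0 : u k ≠ w k := by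
    have := Finset.min'_mem _ hex
    exact (Finset.mem_filter.1 this).2
  have hkl : ∀ l, l < k → u l = w l := by
    intro l hl
    by_contra hcon
    have := Finset.min'_le (Finset.univ.filter fun k => u k ≠ w k) l (by simpa using hcon)
    exact absurd hl (not_lt.2 this)
  have huw : u k < w k := by
    rcases lt_or_gt_of_ne hk0 with h | h
    · exact h
    · exfalso
      have h1 := hr (u k : ℕ) ((k : ℕ) + 1)
      apply absurd h1
      rw [not_le]
      apply Finset.card_lt_card
      rw [Finset.ssubset_iff_of_subset]
      · refine ⟨k, by simp, ?_⟩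
        simp only [Finset.mem_filter, Finset.mem_univ, true_and, not_and, not_le]
        intro _
        exact h
      · intro l hl
        simp only [Finset.mem_filter, Finset.mem_univ, true_and] at hl ⊢
        have hlk : l ≠ k := by
          rintro rfl
          exact absurd h (not_lt.2 hl.2)
        have hlk' : l < k := by
          have h2 : (l : ℕ) ≠ k := fun h => hlk (Fin.ext h)
          show (l : ℕ) < k
          omega
        rw [hkl l hlk']
        exact ⟨hl.1, hl.2⟩
  -- the first position above
  have hex2 : (Finset.univ.filter fun j => k < j ∧ u k < u j ∧ u j ≤ w k).Nonempty := by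
    refine ⟨u.symm (w k), ?_⟩
    simp only [Finset.mem_filter, Finset.mem_univ, true_and, Equiv.apply_symm_apply]
    refine ⟨?_, huw, le_rfl⟩
    rcases lt_trichotomy k (u.symm (w k)) with h | h | h
    · exact h
    · exfalso
      apply hk0
      conv_lhs => rw [h]
      rw [Equiv.apply_symm_apply]
    · exfalso
      have h1 := hkl _ h
      rw [Equiv.apply_symm_apply] at h1
      have h2 := w.injective h1
      rw [← h2] at h
      exact lt_irrefl _ h
  set j := (Finset.univ.filter fun j => k < j ∧ u k < u j ∧ u j ≤ w k).min' hex2 with hj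
  have hj0 : k < j ∧ u k < u j ∧ u j ≤ w k := by
    have := Finset.min'_mem _ hex2
    exact (Finset.mem_filter.1 this).2
  obtain ⟨hkj, hukj, hujw⟩ := hj0
  have hjmin : ∀ l, k < l → l < j → u k < u l → w k < u l := by
    intro l h1 h2 h3
    by_contra hcon
    have := Finset.min'_le (Finset.univ.filter fun j => k < j ∧ u k < u j ∧ u j ≤ w k) l
      (by simpa using ⟨h1, h3, not_lt.1 hcon⟩)
    exact absurd h2 (not_lt.2 this)
  refine ⟨k, j, hkj, hukj, fun p q => ?_⟩
  have hu'k : (u * Equiv.swap k j) k = u j := by simp
  have hu'j : (u * Equiv.swap k j) j = u k := by simp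
  have hu'l : ∀ l, l ≠ k → l ≠ j → (u * Equiv.swap k j) l = u l := by
    intro l h1 h2
    simp [Equiv.swap_apply_of_ne_of_ne h1 h2]
  have hkj' : (k : ℕ) < j := hkj
  have hukj' : (u k : ℕ) < u j := hukj
  have hujw' : (u j : ℕ) ≤ w k := hujw
  by_cases hq1 : q ≤ (k : ℕ)
  · -- small q
    have : swRank (u * Equiv.swap k j) p q = swRank u p q := by
      rw [swRank, swRank]
      congr 1
      ext l
      simp only [Finset.mem_filter, Finset.mem_univ, true_and]
      constructor
      · rintro ⟨h1, h2⟩
        rw [hu'l l (by rintro rfl; omega) (by rintro rfl; omega)] at h2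
        exact ⟨h1, h2⟩
      · rintro ⟨h1, h2⟩
        rw [hu'l l (by rintro rfl; omega) (by rintro rfl; omega)]
        exact ⟨h1, h2⟩
    rw [this]
    exact hr p q
  push Not at hq1
  by_cases hq2 : (j : ℕ) < q
  · -- large q
    have : swRank (u * Equiv.swap k j) p q = swRank u p q := by
      rw [swRank, swRank]
      apply Finset.card_bij' (fun l _ => Equiv.swap k j l) (fun l _ => Equiv.swap k j l)
      · intro l hl
        simp only [Finset.mem_filter, Finset.mem_univ, true_and] at hl ⊢
        refine ⟨?_, hl.2⟩
        rcases eq_or_ne l k with rfl | h1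
        · rw [Equiv.swap_apply_left]
          exact hq2
        rcases eq_or_ne l j with rfl | h2
        · rw [Equiv.swap_apply_right]
          exact hq1
        rw [Equiv.swap_apply_of_ne_of_ne h1 h2]
        exact hl.1
      · intro l hl
        simp only [Finset.mem_filter, Finset.mem_univ, true_and] at hl ⊢
        refine ⟨?_, by simpa using hl.2⟩
        rcases eq_or_ne l k with rfl | h1
        · rw [Equiv.swap_apply_left]
          exact hq2
        rcases eq_or_ne l j with rfl | h2
        · rw [Equiv.swap_apply_right]
          exact hq1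
        rw [Equiv.swap_apply_of_ne_of_ne h1 h2]
        exact hl.1
      · intro l _
        simp
      · intro l _
        simp
    rw [this]
    exact hr p q
  push Not at hq2
  by_cases hp1 : p ≤ (u k : ℕ)
  · have : swRank (u * Equiv.swap k j) p q = swRank u p q := by
      rw [swRank, swRank]
      congr 1
      ext l
      simp only [Finset.mem_filter, Finset.mem_univ, true_and]
      rcases eq_or_ne l k with rfl | h1
      · rw [hu'k]
        omega
      rcases eq_or_ne l j with rfl | h2
      · omega
      rw [hu'l l h1 h2]
    rw [this]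
    exact hr p q
  push Not at hp1
  by_cases hp2 : (u j : ℕ) < p
  · have : swRank (u * Equiv.swap k j) p q = swRank u p q := by
      rw [swRank, swRank]
      congr 1
      ext l
      simp only [Finset.mem_filter, Finset.mem_univ, true_and]
      rcases eq_or_ne l k with rfl | h1
      · rw [hu'k]
        omega
      rcases eq_or_ne l j with rfl | h2
      · omega
      rw [hu'l l h1 h2]
    rw [this]
    exact hr p q
  push Not at hp2
  -- the main case
  have h1 : swRank (u * Equiv.swap k j) p q ≤ swRank u p q + 1 := by
    rw [swRank, swRank]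
    have hsub : (Finset.univ.filter fun l : Fin n => (l : ℕ) < q ∧
        p ≤ ((u * Equiv.swap k j) l : ℕ)) ⊆
        insert k (Finset.univ.filter fun l : Fin n => (l : ℕ) < q ∧ p ≤ (u l : ℕ)) := by
      intro l hl
      simp only [Finset.mem_filter, Finset.mem_univ, true_and, Finset.mem_insert] at hl ⊢
      rcases eq_or_ne l k with rfl | h1
      · exact Or.inl rfl
      rcases eq_or_ne l j with rfl | h2
      · omega
      rw [hu'l l h1 h2] at hl
      exact Or.inr hl
    exact (Finset.card_le_card hsub).trans (Finset.card_insert_le _ _)
  have h2 := swRank_split u p q (w k : ℕ) (by omega)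
  have h3 := swRank_split w p q (w k : ℕ) (by omega)
  have h4 := hr ((w k : ℕ) + 1) q
  have h5 : (Finset.univ.filter fun l : Fin n =>
      (l : ℕ) < q ∧ p ≤ (u l : ℕ) ∧ (u l : ℕ) ≤ (w k : ℕ)).card + 1 ≤
      (Finset.univ.filter fun l : Fin n =>
      (l : ℕ) < q ∧ p ≤ (w l : ℕ) ∧ (w l : ℕ) ≤ (w k : ℕ)).card := by
    have hlt : (Finset.univ.filter fun l : Fin n =>
      (l : ℕ) < q ∧ p ≤ (u l : ℕ) ∧ (u l : ℕ) ≤ (w k : ℕ)) ⊂
      (Finset.univ.filter fun l : Fin n =>
      (l : ℕ) < q ∧ p ≤ (w l : ℕ) ∧ (w l : ℕ) ≤ (w k : ℕ)) := by
      rw [Finset.ssubset_iff_of_subset]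
      · refine ⟨k, ?_, ?_⟩
        · simp only [Finset.mem_filter, Finset.mem_univ, true_and]
          omega
        · simp only [Finset.mem_filter, Finset.mem_univ, true_and]
          omega
      · intro l hl
        simp only [Finset.mem_filter, Finset.mem_univ, true_and] at hl ⊢
        obtain ⟨hl1, hl2, hl3⟩ := hl
        rcases lt_trichotomy l k with h | h | h
        · rw [← hkl l h]
          exact ⟨hl1, hl2, hl3⟩
        · subst h
          omega
        · exfalso
          have h6 : w k < u l := by
            apply hjmin l h
            · show (l : ℕ) < j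
              omega
            · show (u k : ℕ) < u l
              omega
          have h7 : (w k : ℕ) < u l := h6
          omega
    exact Finset.card_lt_card hlt
  omega

end Pool.Agent.W22.SV.Step
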