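import Pool.Agent.W22.SV.Bru
import Pool.Agent.W22.SV.Step

/-! Task SV-CLOS. -/

set_option autoImplicit false

namespace Pool.Agent.W22.SV

open Pool.Agent.W442.SV Matrix MvPolynomial

variable {n : ℕ}

/-- the linear substitution `g ↦ b g b'` -/
noncomputable def sub (b b' : Matrix (Fin n) (Fin n) ℂ) (f : MvPolynomial (Fin n × Fin n) ℂ) :
    MvPolynomial (Fin n × Fin n) ℂ :=
  bind₁ (fun p : Fin n × Fin n => ∑ k, ∑ l, C (b p.1 k) * X (k, l) * C (b' l p.2)) f

lemma eval_sub (b b' g : Matrix (Fin n) (Fin n) ℂ) (f : MvPolynomial (Fin n × Fin n) ℂ) :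
    eval (fun p => g p.1 p.2) (sub b b' f) = eval (fun p => (b * g * b') p.1 p.2) f := by
  have h1 : ∀ a : MvPolynomial (Fin n × Fin n) ℂ,
      eval (fun p => g p.1 p.2) a = aeval (fun p => g p.1 p.2) a := fun a => by
    rw [aeval_eq_eval]
  rw [h1, sub, aeval_bind₁]
  rw [aeval_eq_eval]
  congr 2
  funext p
  simp only [map_sum, map_mul, aeval_X, aeval_C, Algebra.algebraMap_self, RingHom.id_apply]
  rw [Matrix.mul_apply]
  simp only [Matrix.mul_apply, Finset.sum_mul]
  rw [Finset.sum_comm]

lemma schubert_stable {w : Equiv.Perm (Fin n)} {b b' g : Matrix (Fin n) (Fin n) ℂ}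
    (hb : b ∈ borel n) (hb' : b' ∈ borel n) (hg : g ∈ schubert w) : b * g * b' ∈ schubert w := by
  intro f hf
  rw [← eval_sub]
  apply hg
  intro h hh
  rw [eval_sub]
  apply hf
  obtain ⟨c, hc, c', hc', rfl⟩ := hh
  exact ⟨b * c, borel_mul hb hc, c' * b', borel_mul hc' hb', by simp only [Matrix.mul_assoc]⟩

lemma doubleCoset_sub {u w : Equiv.Perm (Fin n)} (h : permMat u ∈ schubert w) :
    doubleCoset u ⊆ schubert w := by
  rintro _ ⟨b, hb, b', hb', rfl⟩
  exact schubert_stable hb hb' h

lemma schubert_sub {u w : Equiv.Perm (Fin n)} (h : permMat u ∈ schubert w) :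
    schubert u ⊆ schubert w := by
  intro g hg f hf
  exact hg f fun h' hh' => doubleCoset_sub h hh' f hf

lemma permMat_mem (w : Equiv.Perm (Fin n)) : permMat w ∈ schubert w := by
  intro f hf
  exact hf _ ⟨1, borel_one, 1, borel_one, by simp⟩

/-! ### ranks -/

lemma sum_sub (P : Fin n → Prop) [DecidablePred P] (F : Fin n → ℂ) (h : ∀ k, ¬ P k → F k = 0) :
    ∑ k, F k = ∑ k : {k : Fin n // P k}, F k := by
  rw [← Finset.sum_subtype (Finset.univ.filter P) (by simp) F]
  symm
  apply Finset.sum_subset (Finset.subset_univ _)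
  intro x _ hx
  exact h x (by simpa using hx)

lemma southWest_mul {b b' g : Matrix (Fin n) (Fin n) ℂ}
    (hb : b ∈ borel n) (hb' : b' ∈ borel n) (p q : ℕ) :
    southWest (b * g * b') p q =
      b.submatrix (Subtype.val : {i : Fin n // p ≤ (i : ℕ)} → Fin n)
        (Subtype.val : {i : Fin n // p ≤ (i : ℕ)} → Fin n) * southWest g p q *
      b'.submatrix (Subtype.val : {j : Fin n // (j : ℕ) < q} → Fin n)
        (Subtype.val : {j : Fin n // (j : ℕ) < q} → Fin n) := by
  ext ⟨i, hi⟩ ⟨j, hj⟩
  simp only [southWest, Matrix.mul_apply, Matrix.submatrix_apply]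
  have h1 : ∀ l : Fin n, ∑ k, b i k * g k l =
      ∑ k : {k : Fin n // p ≤ (k : ℕ)}, b i k * g k l := by
    intro l
    apply sum_sub (fun k : Fin n => p ≤ (k : ℕ)) (fun k => b i k * g k l)
    intro k hk
    have h2 : b i k = 0 := hb.2 i k (by
      show (k : ℕ) < i
      omega)
    simp [h2]
  rw [sum_sub (fun k : Fin n => (k : ℕ) < q) (fun l => (∑ k, b i k * g k l) * b' l j)]
  · simp only [h1]
  · intro k hk
    have h2 : b' k j = 0 := hb'.2 k j (by
      show (j : ℕ) < k
      omega)
    simp [h2]

lemma rank_le {b b' g : Matrix (Fin n) (Fin n) ℂ}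
    (hb : b ∈ borel n) (hb' : b' ∈ borel n) (p q : ℕ) :
    (southWest (b * g * b') p q).rank ≤ (southWest g p q).rank := by
  rw [southWest_mul hb hb']
  exact (Matrix.rank_mul_le_left _ _).trans (Matrix.rank_mul_le_right _ _)

lemma swRank_le_rank (u : Equiv.Perm (Fin n)) (p q : ℕ) :
    swRank u p q ≤ (southWest (permMat u) p q).rank := by
  set S := {j : Fin n // (j : ℕ) < q ∧ p ≤ (u j : ℕ)} with hS
  have hcard : Fintype.card S = swRank u p q := by
    rw [swRank, Fintype.card_subtype]
  set A : Matrix S {i : Fin n // p ≤ (i : ℕ)} ℂ := fun s i => if (i : Fin n) = u s.1 then 1 else 0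
    with hA
  set B : Matrix {j : Fin n // (j : ℕ) < q} S ℂ := fun j s => if (j : Fin n) = s.1 then 1 else 0
    with hB
  have h1 : A * southWest (permMat u) p q * B = 1 := by
    ext s t
    rw [Matrix.mul_apply]
    have h2 : ∀ j : {j : Fin n // (j : ℕ) < q}, (A * southWest (permMat u) p q) s j =
        if (j : Fin n) = s.1 then 1 else 0 := by
      intro j
      rw [Matrix.mul_apply]
      rw [Finset.sum_eq_single (⟨u s.1, s.2.2⟩ : {i : Fin n // p ≤ (i : ℕ)})]
      · simp only [hA, southWest, permMat, Matrix.submatrix_apply, Matrix.of_apply, if_true,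
          one_mul]
        by_cases h : (j : Fin n) = s.1
        · simp [h]
        · have h3 : ¬ (u s.1 = u (j : Fin n)) := fun h' => h (u.injective h').symm
          simp [h, h3]
      · intro i _ hi
        have h3 : ¬ ((i : Fin n) = u s.1) := fun h => hi (Subtype.ext h)
        simp [hA, h3]
      · intro h
        exact absurd (Finset.mem_univ _) h
    simp only [h2]
    rw [Finset.sum_eq_single (⟨s.1, s.2.1⟩ : {j : Fin n // (j : ℕ) < q})]
    · simp only [hB, if_true, one_mul]
      by_cases h : s = t
      · subst h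
        simp
      · have h3 : ¬ (s.1 = t.1) := fun h' => h (Subtype.ext h')
        simp [h, h3]
    · intro j _ hj
      have h3 : ¬ ((j : Fin n) = s.1) := fun h => hj (Subtype.ext h)
      simp [h3]
    · intro h
      exact absurd (Finset.mem_univ _) h
  have h2 : (1 : Matrix S S ℂ).rank = Fintype.card S := Matrix.rank_one
  rw [← hcard, ← h2, ← h1]
  exact (Matrix.rank_mul_le_left _ _).trans (Matrix.rank_mul_le_right _ _)

/-! ### one step -/

lemma mem_step (u : Equiv.Perm (Fin n)) {i j : Fin n} (hij : i < j) (huij : u i < u j) {t : ℂ}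
    (ht : t ≠ 0) :
    (fun k l => (if k = u l then 1 else 0) + if k = u j ∧ l = i then t else 0 :
      Matrix (Fin n) (Fin n) ℂ) ∈ doubleCoset (u * Equiv.swap i j) := by
  set b : Matrix (Fin n) (Fin n) ℂ := fun k l => (if k = l then 1 else 0) +
    if k = u i ∧ l = u j then t⁻¹ else 0 with hb
  set b' : Matrix (Fin n) (Fin n) ℂ := fun k l =>
    if k = i then (if l = i then t else if l = j then 1 else 0)
    else if k = j then (if l = j then - t⁻¹ else 0) else if k = l then 1 else 0 with hb'
  have hji : j ≠ i := hij.ne'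
  have hne : u i ≠ u j := huij.ne
  refine ⟨b, ?_, b', ?_, ?_⟩
  · rw [mem_borel_iff]
    constructor
    · intro k
      have : ¬ (k = u i ∧ k = u j) := by
        rintro ⟨h1, h2⟩
        exact hne (h1.symm.trans h2)
      simp [hb, this]
    · intro k l hkl
      have h1 : ¬ (k = u i ∧ l = u j) := by
        rintro ⟨rfl, rfl⟩
        exact absurd hkl (not_lt.2 huij.le)
      simp [hb, hkl.ne', h1]
  · rw [mem_borel_iff]
    constructor
    · intro k
      by_cases h1 : k = i
      · simp [hb', h1, ht]
      · by_cases h2 : k = j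
        · simp [hb', h2, hji, ht]
        · simp [hb', h1, h2]
    · intro k l hkl
      by_cases h1 : k = i
      · subst h1
        have h2 : l ≠ k := hkl.ne
        have h3 : l ≠ j := (hkl.trans hij).ne
        simp [hb', h2, h3]
      · by_cases h2 : k = j
        · subst h2
          have h3 : l ≠ k := hkl.ne
          simp [hb', h1, h3]
        · simp [hb', h1, h2, hkl.ne']
  · -- the product
    have hprod : ∀ (k l : Fin n), (permMat (u * Equiv.swap i j) * b') k l =
        b' ((u * Equiv.swap i j).symm k) l := by
      intro k l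
      rw [Matrix.mul_apply, Finset.sum_eq_single ((u * Equiv.swap i j).symm k)]
      · simp only [permMat, Matrix.of_apply, Equiv.apply_symm_apply, if_true, one_mul]
      · intro m _ hm
        have : ¬ (k = (u * Equiv.swap i j) m) := by
          intro h
          apply hm
          rw [h, Equiv.symm_apply_apply]
        simp only [permMat, Matrix.of_apply, this, if_false, zero_mul]
      · intro h
        exact absurd (Finset.mem_univ _) h
    have hsuj : (u * Equiv.swap i j).symm (u j) = i := by
      rw [Equiv.symm_apply_eq]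
      simp
    have hsui : (u * Equiv.swap i j).symm (u i) = j := by
      rw [Equiv.symm_apply_eq]
      simp
    have hsk : ∀ k, k ≠ u i → k ≠ u j → (u * Equiv.swap i j).symm k = u.symm k := by
      intro k h1 h2
      rw [Equiv.symm_apply_eq, Equiv.Perm.mul_apply, Equiv.swap_apply_of_ne_of_ne]
      · rw [Equiv.apply_symm_apply]
      · intro h
        apply h1
        rw [← h, Equiv.apply_symm_apply]
      · intro h
        apply h2
        rw [← h, Equiv.apply_symm_apply]
    ext k l
    rw [Matrix.mul_assoc, Matrix.mul_apply]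
    simp only [hprod]
    have h1 : ∑ x, b k x * b' ((u * Equiv.swap i j).symm x) l =
        b' ((u * Equiv.swap i j).symm k) l +
          if k = u i then t⁻¹ * b' i l else 0 := by
      have h2 : ∀ x, b k x * b' ((u * Equiv.swap i j).symm x) l =
          (if k = x then b' ((u * Equiv.swap i j).symm x) l else 0) +
          (if x = u j then (if k = u i then t⁻¹ * b' i l else 0) else 0) := by
        intro x
        simp only [hb]
        by_cases hx : x = u j
        · subst hx
          rw [hsuj]
          by_cases hk : k = u i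
          · by_cases hk2 : k = u j
            · exact absurd (hk.symm.trans hk2) hne
            · simp [hk, hne]
          · by_cases hk2 : k = u j
            · simp [hk2, hne.symm]
            · simp [hk, hk2]
        · by_cases hk2 : k = x
          · simp [hx, hk2]
          · simp [hx, hk2]
      simp only [h2, Finset.sum_add_distrib, Finset.sum_ite_eq, Finset.mem_univ, if_true,
        Finset.sum_ite_eq']
    rw [h1]
    by_cases hk1 : k = u i
    · subst hk1
      rw [hsui]
      simp only [hb', if_true, hji, if_false, hne, false_and, add_zero, u.injective.eq_iff]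
      by_cases hl1 : l = i
      · subst hl1
        simp [hij.ne, ht]
      · by_cases hl2 : l = j
        · subst hl2
          simp [hij.ne, hji]
        · simp [hl1, hl2, Ne.symm hl1]
    · by_cases hk2 : k = u j
      · subst hk2
        rw [hsuj]
        simp only [hb', if_true, hk1, if_false, add_zero, true_and, u.injective.eq_iff]
        by_cases hl1 : l = i
        · subst hl1
          simp [hji]
        · by_cases hl2 : l = j
          · subst hl2
            simp [hji]
          · simp [hl1, hl2, Ne.symm hl2]
      · rw [hsk k hk1 hk2]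
        have h3 : u.symm k ≠ i := by
          intro h
          apply hk1
          rw [← h, Equiv.apply_symm_apply]
        have h4 : u.symm k ≠ j := by
          intro h
          apply hk2
          rw [← h, Equiv.apply_symm_apply]
        simp only [hb', h3, h4, if_false, hk1, hk2, false_and, add_zero, Equiv.symm_apply_eq]

lemma permMat_step (u : Equiv.Perm (Fin n)) {i j : Fin n} (hij : i < j) (huij : u i < u j) :
    permMat u ∈ schubert (u * Equiv.swap i j) := by
  intro f hf
  have hcont : Continuous fun t : ℂ => eval (fun p : Fin n × Fin n =>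
      (if p.1 = u p.2 then (1 : ℂ) else 0) + if p.1 = u j ∧ p.2 = i then t else 0) f := by
    refine (MvPolynomial.continuous_eval f).comp ?_
    apply continuous_pi
    intro p
    by_cases h : p.1 = u j ∧ p.2 = i
    · simp only [h, and_self, if_true]
      fun_prop
    · simp only [h, if_false]
      fun_prop
  have h0 : (fun t : ℂ => eval (fun p : Fin n × Fin n =>
      (if p.1 = u p.2 then (1 : ℂ) else 0) + if p.1 = u j ∧ p.2 = i then t else 0) f) =
      fun _ => 0 := by
    apply Continuous.ext_on (dense_compl_singleton (0 : ℂ)) hcont continuous_const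
    intro t ht
    have h2 := mem_step u hij huij (t := t) ht
    have h3 := hf (fun k l => (if k = u l then 1 else 0) + if k = u j ∧ l = i then t else 0) h2
    exact h3
  have h1 := congrFun h0 0
  simp only [ite_self, add_zero] at h1
  exact h1

/-- the potential -/
def pot (u : Equiv.Perm (Fin n)) : ℕ := ∑ l : Fin n, (l : ℕ) * (u l : ℕ)

lemma pot_lt (u : Equiv.Perm (Fin n)) {i j : Fin n} (hij : i < j) (huij : u i < u j) :
    pot (u * Equiv.swap i j) < pot u := by
  have hji : j ≠ i := hij.ne'
  have key : ∀ v : Equiv.Perm (Fin n), pot v = (i : ℕ) * (v i : ℕ) + ((j : ℕ) * (v j : ℕ) +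
      ∑ l ∈ (Finset.univ.erase i).erase j, (l : ℕ) * (v l : ℕ)) := by
    intro v
    rw [pot, ← Finset.add_sum_erase _ _ (Finset.mem_univ i),
      ← Finset.add_sum_erase _ _ (Finset.mem_erase.2 ⟨hji, Finset.mem_univ j⟩)]
  rw [key, key u]
  have h1 : ∑ l ∈ (Finset.univ.erase i).erase j, (l : ℕ) * ((u * Equiv.swap i j) l : ℕ) =
      ∑ l ∈ (Finset.univ.erase i).erase j, (l : ℕ) * (u l : ℕ) := by
    apply Finset.sum_congr rfl
    intro l hl
    rw [Finset.mem_erase, Finset.mem_erase] at hl
    rw [Equiv.Perm.mul_apply, Equiv.swap_apply_of_ne_of_ne hl.2.1 hl.1]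
  rw [h1]
  simp only [Equiv.Perm.mul_apply, Equiv.swap_apply_left, Equiv.swap_apply_right]
  have h2 : (i : ℕ) < j := hij
  have h3 : (u i : ℕ) < u j := huij
  nlinarith

lemma permMat_mem_of (w : Equiv.Perm (Fin n)) : ∀ (N : ℕ) (u : Equiv.Perm (Fin n)), pot u ≤ N →
    (∀ p q : ℕ, swRank u p q ≤ swRank w p q) → permMat u ∈ schubert w := by
  intro N
  induction N with
  | zero =>
    intro u hu hr
    by_cases h : u = w
    · rw [h]
      exact permMat_mem w
    · obtain ⟨i, j, hij, huij, -⟩ := Step.main n u w hr h
      have := pot_lt u hij huij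
      omega
  | succ N ih =>
    intro u hu hr
    by_cases h : u = w
    · rw [h]
      exact permMat_mem w
    · obtain ⟨i, j, hij, huij, hr'⟩ := Step.main n u w hr h
      have h1 := pot_lt u hij huij
      have h2 := ih (u * Equiv.swap i j) (by omega) hr'
      exact schubert_sub h2 (permMat_step u hij huij)

theorem clos : S_clos := by
  intro n w g hg hr
  obtain ⟨u, b, hb, b', hb', rfl⟩ := bruhat n g hg
  have h1 : ∀ p q : ℕ, swRank u p q ≤ swRank w p q := by
    intro p q
    refine (swRank_le_rank u p q).trans (le_trans ?_ (hr p q))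
    have h2 := rank_le (g := b * permMat u * b') (borel_inv hb) (borel_inv hb') p q
    have h3 : b⁻¹ * (b * permMat u * b') * b'⁻¹ = permMat u := by
      rw [Matrix.mul_assoc b (permMat u) b', ← Matrix.mul_assoc b⁻¹,
        Matrix.nonsing_inv_mul _ hb.1, Matrix.one_mul, Matrix.mul_assoc,
        Matrix.mul_nonsing_inv _ hb'.1, Matrix.mul_one]
    rw [h3] at h2
    exact h2
  exact schubert_stable hb hb' (permMat_mem_of w _ u le_rfl h1)

end Pool.Agent.W22.SV

namespace Pool.Agent.W22.SV.Clos

theorem main : Pool.Agent.W442.SV.S_clos := Pool.Agent.W22.SV.clos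

end Pool.Agent.W22.SV.Clos
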