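import Pool.Agent.W442.SV.Defs

/-! Task SV-BRU: Bruhat decomposition. -/

set_option autoImplicit false

namespace Pool.Agent.W22.SV

open Pool.Agent.W442.SV Matrix

variable {n : ℕ}

lemma mem_borel_iff {b : Matrix (Fin n) (Fin n) ℂ} :
    b ∈ borel n ↔ (∀ i, b i i ≠ 0) ∧ ∀ i j, j < i → b i j = 0 := by
  constructor
  · rintro ⟨h1, h2⟩
    refine ⟨fun i hi => ?_, h2⟩
    have h3 : b.det = ∏ i, b i i := det_of_upperTriangular fun i j hij => h2 i j hij
    rw [h3] at h1
    exact h1.ne_zero (Finset.prod_eq_zero (Finset.mem_univ i) hi)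
  · rintro ⟨h1, h2⟩
    refine ⟨?_, h2⟩
    have h3 : b.det = ∏ i, b i i := det_of_upperTriangular fun i j hij => h2 i j hij
    rw [h3, isUnit_iff_ne_zero]
    exact Finset.prod_ne_zero_iff.2 fun i _ => h1 i

lemma borel_mul {b c : Matrix (Fin n) (Fin n) ℂ} (hb : b ∈ borel n) (hc : c ∈ borel n) :
    b * c ∈ borel n := by
  refine ⟨?_, fun i j hij => ?_⟩
  · rw [det_mul]
    exact hb.1.mul hc.1
  · have h1 : BlockTriangular b id := fun i j h => hb.2 i j h
    have h2 : BlockTriangular c id := fun i j h => hc.2 i j h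
    exact (h1.mul h2) hij

lemma borel_one : (1 : Matrix (Fin n) (Fin n) ℂ) ∈ borel n := by
  rw [mem_borel_iff]
  exact ⟨fun i => by simp, fun i j h => Matrix.one_apply_ne h.ne'⟩

lemma borel_inv {b : Matrix (Fin n) (Fin n) ℂ} (hb : b ∈ borel n) : b⁻¹ ∈ borel n := by
  refine ⟨?_, fun i j hij => ?_⟩
  · exact Matrix.isUnit_nonsing_inv_det b hb.1
  · have h1 : BlockTriangular b id := fun i j h => hb.2 i j h
    have : Invertible b := b.invertibleOfIsUnitDet hb.1
    exact (blockTriangular_inv_of_blockTriangular h1) hij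

/-- the state after `k` columns -/
def St (g : Matrix (Fin n) (Fin n) ℂ) (k : ℕ) : Prop :=
  ∃ b ∈ borel n, ∃ b' ∈ borel n, ∃ h : Matrix (Fin n) (Fin n) ℂ, b * g * b' = h ∧
    ∃ f : Fin n → Fin n, (∀ j : Fin n, (j : ℕ) < k → ∀ i, h i j = if i = f j then 1 else 0) ∧
      ∀ j : Fin n, (j : ℕ) < k → ∀ l : Fin n, k ≤ (l : ℕ) → h (f j) l = 0

lemma step {g : Matrix (Fin n) (Fin n) ℂ} (hg : IsUnit g.det) {k : ℕ} (hk : k < n)
    (h : St g k) : St g (k + 1) := by
  obtain ⟨b, hb, b', hb', h, rfl, f, hf1, hf2⟩ := h
  set h := b * g * b' with hh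
  have hdet : IsUnit h.det := by
    rw [hh, det_mul, det_mul]
    exact (hb.1.mul hg).mul hb'.1
  set K : Fin n := ⟨k, hk⟩ with hK
  -- a nonzero entry in column `k`
  have hex : ∃ a, h a K ≠ 0 := by
    by_contra hcon
    push Not at hcon
    exact hdet.ne_zero (det_eq_zero_of_column_eq_zero K hcon)
  have hne : (Finset.univ.filter fun a => h a K ≠ 0).Nonempty := by
    obtain ⟨a, ha⟩ := hex
    exact ⟨a, by simpa using ha⟩
  set a := (Finset.univ.filter fun a => h a K ≠ 0).max' hne with ha
  have ha0 : h a K ≠ 0 := by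
    have := Finset.max'_mem _ hne
    simpa using (Finset.mem_filter.1 this).2
  have hmax : ∀ i, a < i → h i K = 0 := by
    intro i hi
    by_contra hcon
    have := Finset.le_max' (Finset.univ.filter fun a => h a K ≠ 0) i (by simpa using hcon)
    exact absurd hi (not_lt.2 this)
  have hfa : ∀ j : Fin n, (j : ℕ) < k → f j ≠ a := by
    intro j hj he
    apply ha0
    rw [← he]
    exact hf2 j hj K (le_refl _)
  have haj : ∀ j : Fin n, (j : ℕ) < k → h a j = 0 := by
    intro j hj
    rw [hf1 j hj, if_neg (hfa j hj).symm]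
  -- left multiplication
  set c : Fin n → ℂ := fun i => if i = a then (h a K)⁻¹ - 1 else - (h i K / h a K) with hc
  set L : Matrix (Fin n) (Fin n) ℂ := fun i l => (if i = l then 1 else 0) +
    if l = a then c i else 0 with hL
  have hLB : L ∈ borel n := by
    rw [mem_borel_iff]
    constructor
    · intro i
      by_cases hi : i = a
      · simp only [hL, hc, hi, if_true]
        rw [add_sub_cancel]
        exact inv_ne_zero ha0
      · simp [hL, hi]
    · intro i j hij
      have h1 : i ≠ j := hij.ne'
      by_cases hj : j = a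
      · subst hj
        have h2 := hmax i hij
        simp only [hL, hc, h1, if_false, if_true, h2]
        simp
      · simp [hL, h1, hj]
  set h1 := L * h with hh1
  have h1_apply : ∀ i l, h1 i l = h i l + c i * h a l := by
    intro i l
    rw [hh1, Matrix.mul_apply]
    simp only [hL, add_mul, Finset.sum_add_distrib, ite_mul, one_mul, zero_mul,
      Finset.sum_ite_eq, Finset.mem_univ, if_true, Finset.sum_ite_eq']
  have h1K : ∀ i, h1 i K = if i = a then 1 else 0 := by
    intro i
    rw [h1_apply]
    by_cases hi : i = a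
    · simp only [hc, hi, if_true]
      field_simp
      ring
    · simp only [hc, hi, if_false]
      field_simp
      ring
  have h1j : ∀ j : Fin n, (j : ℕ) < k → ∀ i, h1 i j = h i j := by
    intro j hj i
    rw [h1_apply, haj j hj, mul_zero, add_zero]
  have h1f : ∀ j : Fin n, (j : ℕ) < k → ∀ l : Fin n, k ≤ (l : ℕ) → h1 (f j) l = 0 := by
    intro j hj l hl
    rw [h1_apply, hf2 j hj l hl]
    simp only [hc, hfa j hj, if_false]
    rw [hf2 j hj K (le_refl _)]
    simp
  -- right multiplication
  set r : Fin n → ℂ := fun l => if K < l then - h1 a l else 0 with hr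
  set R : Matrix (Fin n) (Fin n) ℂ := fun m l => (if m = l then 1 else 0) +
    if m = K then r l else 0 with hR
  have hRB : R ∈ borel n := by
    rw [mem_borel_iff]
    constructor
    · intro i
      by_cases hi : i = K
      · simp [hR, hr, hi]
      · simp [hR, hi]
    · intro i j hij
      have h1 : i ≠ j := hij.ne'
      by_cases hj : i = K
      · have h2 : ¬ K < j := by
          rw [← hj]
          exact not_lt.2 hij.le
        simp [hR, hr, h1, h2]
      · simp [hR, h1, hj]
  set h2 := h1 * R with hh2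
  have h2_apply : ∀ i l, h2 i l = h1 i l + h1 i K * r l := by
    intro i l
    rw [hh2, Matrix.mul_apply]
    simp only [hR, mul_add, Finset.sum_add_distrib, mul_ite, mul_one, mul_zero,
      Finset.sum_ite_eq, Finset.mem_univ, if_true, Finset.sum_ite_eq']
  have hrle : ∀ l : Fin n, ¬ K < l → r l = 0 := by
    intro l hl
    simp [hr, hl]
  refine ⟨L * b, borel_mul hLB hb, b' * R, borel_mul hb' hRB, h2, ?_,
    fun j => if j = K then a else f j, ?_, ?_⟩
  · rw [hh2, hh1, hh]
    simp only [Matrix.mul_assoc]
  · intro j hj i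
    have hjK : ¬ K < j := by
      intro h
      have : k < (j : ℕ) := h
      omega
    rw [h2_apply, hrle j hjK, mul_zero, add_zero]
    by_cases hjk : j = K
    · subst hjk
      simp only [if_true]
      exact h1K i
    · have hjk' : (j : ℕ) < k := by
        have : (j : ℕ) ≠ k := fun h => hjk (Fin.ext h)
        omega
      simp only [hjk, if_false]
      rw [h1j j hjk', hf1 j hjk']
  · intro j hj l hl
    have hlK : K < l := by
      show k < (l : ℕ)
      omega
    rw [h2_apply]
    by_cases hjk : j = K
    · subst hjk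
      simp only [if_true]
      rw [h1K]
      simp [hr, hlK]
    · have hjk' : (j : ℕ) < k := by
        have : (j : ℕ) ≠ k := fun h => hjk (Fin.ext h)
        omega
      simp only [hjk, if_false]
      rw [h1f j hjk' l (by omega), h1f j hjk' K (le_refl _)]
      simp

lemma st_all {g : Matrix (Fin n) (Fin n) ℂ} (hg : IsUnit g.det) (k : ℕ) (hk : k ≤ n) :
    St g k := by
  induction k with
  | zero =>
    refine ⟨1, borel_one, 1, borel_one, g, by simp, id, ?_, ?_⟩
    · intro j hj
      exact absurd hj (Nat.not_lt_zero _)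
    · intro j hj
      exact absurd hj (Nat.not_lt_zero _)
  | succ k ih => exact step hg (by omega) (ih (by omega))

theorem bruhat : S_bruhat := by
  intro n g hg
  obtain ⟨b, hb, b', hb', h, hh, f, hf, -⟩ := st_all hg n le_rfl
  have hdet : IsUnit h.det := by
    rw [← hh, det_mul, det_mul]
    exact (hb.1.mul hg).mul hb'.1
  have hinj : Function.Injective f := by
    intro i j hij
    by_contra hne
    apply hdet.ne_zero
    apply det_zero_of_column_eq hne
    intro k
    rw [hf i i.2, hf j j.2, hij]
  refine ⟨Equiv.ofBijective f (Finite.injective_iff_bijective.1 hinj), b⁻¹, borel_inv hb,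
    b'⁻¹, borel_inv hb', ?_⟩
  have h1 : permMat (Equiv.ofBijective f (Finite.injective_iff_bijective.1 hinj)) = h := by
    ext i j
    rw [hf j j.2]
    rfl
  rw [h1, ← hh]
  have h2 := hb.1
  have h3 := hb'.1
  rw [Matrix.mul_assoc b g b', ← Matrix.mul_assoc b⁻¹, Matrix.nonsing_inv_mul _ h2,
    Matrix.one_mul, Matrix.mul_assoc, Matrix.mul_nonsing_inv _ h3, Matrix.mul_one]

end Pool.Agent.W22.SV

namespace Pool.Agent.W22.SV.Bru

theorem main : Pool.Agent.W442.SV.S_bruhat := Pool.Agent.W22.SV.bruhat

end Pool.Agent.W22.SV.Bru
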